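import Pool.Agent.Lib.MP_761168_co.F.Main58
import Pool.Agent.Lib.MP_761168_co.X.JP3_93
import Pool.Agent.Lib.MP_761168_co.L.Main56

/-!
# Jucovic-Moon: the maximum radius of a 3-polytope with `n` vertices is `n / 4 + 1`

`IsPolytope3`, `Vertex` and `vertexGraph` are defined in the file `X.JP3_93`; the radius of the
vertex-edge graph is the one of Mathlib, `SimpleGraph.radius`.
-/

namespace Pool.Agent.Results.MP_761168_co.JucovicMoon

open _root_.MP_761168_co

theorem radius_le (P : Set E3) (hP : IsPolytope3 P) (n : ℕ)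
    (hn : (P.extremePoints ℝ).encard = n) :
    (vertexGraph P).radius ≤ ((n / 4 + 1 : ℕ) : ℕ∞) := by
  obtain ⟨hfin, hc, x, hx⟩ := polytope_of_graph 4 (fun V _ _ G => graph_full G) P hP
  have hcard : (P.extremePoints ℝ).ncard = n := by
    rw [Set.ncard_def, hn, ENat.toNat_natCast]
  refine SimpleGraph.radius_le_eccent.trans ((SimpleGraph.eccent_le_iff x _).2 fun y => ?_)
  have h1 := hx y
  rw [hcard] at h1
  have h2 : (vertexGraph P).edist x y = (((vertexGraph P).dist x y : ℕ) : ℕ∞) :=
    (hc.preconnected x y).coe_dist_eq_edist.symm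
  rw [h2]
  exact_mod_cast h1.trans (by omega)

/-- The maximum radius of a 3-polytope with `n ≥ 6` vertices is `n / 4 + 1` (integer part). -/
theorem result (n : ℕ) (hn : 6 ≤ n) :
    IsGreatest {ρ : ℕ∞ | ∃ P : Set E3, IsPolytope3 P ∧ (P.extremePoints ℝ).encard = n ∧
      (vertexGraph P).radius = ρ} ((n / 4 + 1 : ℕ) : ℕ∞) := by
  constructor
  · obtain ⟨P, hP, hc, hr⟩ := exists_polytope n hn
    exact ⟨P, hP, hc, le_antisymm (radius_le P hP n hc) hr⟩
  · rintro ρ ⟨P, hP, hc, rfl⟩
    exact radius_le P hP n hc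

end Pool.Agent.Results.MP_761168_co.JucovicMoon
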